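import Pool.Agent.Helper17.SV.Stmts

set_option autoImplicit false

open Finset

namespace Pool.Agent.Helper17.SV

theorem nrm_mat {m m' : ℕ} (S : Matrix (Fin m) (Fin m') ℂ) (d : Fin m' → ℂ) (E : Fin m → ℂ)
    (h : ∀ i i', ∑ j, d j * S i j * (starRingEnd ℂ) (S i' j) = if i = i' then E i else 0) :
    S * (Matrix.diagonal d * S.conjTranspose) = Matrix.diagonal E := by
  ext i i'
  rw [Matrix.mul_apply, Matrix.diagonal_apply, ← h i i']
  refine Finset.sum_congr rfl fun j _ => ?_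
  rw [Matrix.diagonal_mul, Matrix.conjTranspose_apply, starRingEnd_apply]
  ring

theorem nrm_le {m m' : ℕ} (S : Matrix (Fin m) (Fin m') ℂ) (d : Fin m' → ℂ) (E : Fin m → ℂ)
    (hE : ∀ i, E i ≠ 0)
    (h : ∀ i i', ∑ j, d j * S i j * (starRingEnd ℂ) (S i' j) = if i = i' then E i else 0) :
    m ≤ m' := by
  have h1 := nrm_mat S d E h
  have h2 : (Matrix.diagonal E).rank = m := by
    have hu : IsUnit (Matrix.diagonal E) := by
      rw [Matrix.isUnit_iff_isUnit_det, Matrix.det_diagonal, isUnit_iff_ne_zero]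
      exact Finset.prod_ne_zero_iff.mpr fun i _ => hE i
    rw [Matrix.rank_of_isUnit _ hu, Fintype.card_fin]
  have h3 : (S * (Matrix.diagonal d * S.conjTranspose)).rank ≤ S.rank :=
    Matrix.rank_mul_le_left _ _
  have h4 : S.rank ≤ m' := by
    have := Matrix.rank_le_card_width S
    simpa using this
  rw [h1, h2] at h3
  exact h3.trans h4

theorem nrm_det {m : ℕ} (S : Matrix (Fin m) (Fin m) ℂ) (R : Subalgebra ℤ ℂ)
    (h : ∀ i j, S i j ∈ R) : S.det ∈ R := by
  rw [Matrix.det_apply]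
  refine Subalgebra.sum_mem _ fun σ _ => ?_
  have hp : (∏ i, S (σ i) i) ∈ R := Subalgebra.prod_mem _ fun i _ => h _ _
  rcases Int.units_eq_one_or (Equiv.Perm.sign σ) with hs | hs
  · rw [hs, one_smul]; exact hp
  · rw [hs, Units.neg_smul, one_smul]; exact Subalgebra.neg_mem _ hp

theorem nrm_int (R : Subalgebra ℤ ℂ) (a : ℤ) : (a : ℂ) ∈ R := by
  have h := R.algebraMap_mem a
  simpa using h

theorem nrm_entry (R : Subalgebra ℤ ℂ) (ζ : ℂ) (h : ζ ∈ R) (s : Finset ℕ) (f : ℕ → ℤ) :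
    ∑ t ∈ s, (f t : ℂ) * ζ ^ t ∈ R :=
  Subalgebra.sum_mem _ fun _ _ => Subalgebra.mul_mem _ (nrm_int R _) (Subalgebra.pow_mem _ h _)

theorem st_NRM (hORB : ST_ORB) (hGRAM : ST_GRAM) : ST_NRM := by
  intro v n lam q r A g π ζ hq hq2 hn hζ hA hg hπ hAA hAA'
  obtain ⟨m, x, e, he, hx, hfix, hinj, hv⟩ := hORB v q r g hq hg
  obtain ⟨m', b, e', he', hb, hfix', hinj', hv'⟩ := hORB v q r π hq hπ
  have hq0 : (q : ℂ) ≠ 0 := Nat.cast_ne_zero.mpr hq.ne_zero
  have hn0 : (n : ℂ) ≠ 0 := Nat.cast_ne_zero.mpr (by omega)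
  have G1 := hGRAM v n lam q r A g π ζ hq hζ hA hg hπ hAA m m' x e b e' he hx hfix hinj
    he' hb hfix' hinj'
  have G2 := hGRAM v n lam q r A.transpose π g ζ hq hζ
    (fun a i => by rw [Matrix.transpose_apply, Matrix.transpose_apply]; exact hA i a) hπ hg
    (by rw [Matrix.transpose_transpose]; exact hAA') m' m b e' x e he' hb hfix' hinj'
    he hx hfix hinj
  have hle : m ≤ m' := nrm_le
    (Matrix.of fun i j => ∑ t ∈ range (q ^ r), (A (x i) ((π ^ t) (b j)) : ℂ) * ζ ^ t)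
    (fun j => (q : ℂ) ^ e' j) (fun i => (n : ℂ) * (q : ℂ) ^ (2 * r - e i))
    (fun i => mul_ne_zero hn0 (pow_ne_zero _ hq0)) G1
  have hle' : m' ≤ m := nrm_le
    (Matrix.of fun i j => ∑ t ∈ range (q ^ r), (A.transpose (b i) ((g ^ t) (x j)) : ℂ) * ζ ^ t)
    (fun j => (q : ℂ) ^ e j) (fun i => (n : ℂ) * (q : ℂ) ^ (2 * r - e' i))
    (fun i => mul_ne_zero hn0 (pow_ne_zero _ hq0)) G2
  obtain rfl : m = m' := le_antisymm hle hle'
  set S : Matrix (Fin m) (Fin m) ℂ :=
    Matrix.of fun i j => ∑ t ∈ range (q ^ r), (A (x i) ((π ^ t) (b j)) : ℂ) * ζ ^ t with hS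
  have hmat := nrm_mat S (fun j => (q : ℂ) ^ e' j) (fun i => (n : ℂ) * (q : ℂ) ^ (2 * r - e i)) G1
  have hdet := congrArg Matrix.det hmat
  rw [Matrix.det_mul, Matrix.det_mul, Matrix.det_diagonal, Matrix.det_diagonal,
    Matrix.det_conjTranspose, Finset.prod_mul_distrib, Finset.prod_const, Finset.card_univ,
    Fintype.card_fin, Finset.prod_pow_eq_pow_sum, Finset.prod_pow_eq_pow_sum] at hdet
  refine ⟨m, ∑ i, (2 * r - e i) + ∑ j, e' j, ?_, S.det * (q : ℂ) ^ (∑ j, e' j), ?_, ?_⟩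
  · have hodd : Odd q := hq.odd_of_ne_two hq2
    have h1 : ∀ s : Finset (Fin m), Even (∑ i ∈ s, q ^ e i + s.card) := by
      intro s
      induction s using Finset.induction_on with
      | empty => simp
      | insert a s ha ih =>
        rw [Finset.sum_insert ha, Finset.card_insert_of_notMem ha]
        have h2 : Odd (q ^ e a) := hodd.pow
        have h3 : Even (q ^ e a + 1) := h2.add_one
        have h4 : q ^ e a + ∑ i ∈ s, q ^ e i + (s.card + 1) =
          (q ^ e a + 1) + (∑ i ∈ s, q ^ e i + s.card) := by ring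
        rw [h4]
        exact h3.add ih
    have h2 := h1 Finset.univ
    rw [Finset.card_univ, Fintype.card_fin] at h2
    have h3 : v + nfix g + m = (nfix g + nfix g) + (∑ i, q ^ e i + m) := by
      omega
    rw [h3]
    exact (Even.add_self _).add h2
  · have hz : ζ ∈ Algebra.adjoin ℤ ({ζ} : Set ℂ) := Algebra.subset_adjoin rfl
    generalize Algebra.adjoin ℤ ({ζ} : Set ℂ) = R at hz ⊢
    refine Subalgebra.mul_mem _ (nrm_det S _ fun i j => ?_) ?_
    · exact nrm_entry R ζ hz (range (q ^ r)) (fun t => A (x i) ((π ^ t) (b j)))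
    · have := nrm_int R (q : ℤ)
      rw [Int.cast_natCast] at this
      exact Subalgebra.pow_mem _ this _
  · rw [map_mul, map_pow, Complex.conj_natCast, pow_add, starRingEnd_apply]
    calc S.det * (q : ℂ) ^ (∑ j, e' j) * (star S.det * (q : ℂ) ^ (∑ j, e' j))
        = (S.det * ((q : ℂ) ^ (∑ j, e' j) * star S.det)) * (q : ℂ) ^ (∑ j, e' j) := by ring
      _ = _ := by rw [hdet]; ring

end Pool.Agent.Helper17.SV
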